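import Pool.Agent.H13.DEV.Targets
import Pool.Agent.H34.N6.LibC

/-! # Row RED: the factor of the reduction -/

set_option autoImplicit false

open Polynomial NumberField IsDedekindDomain Pool.Agent.H32.QC Pool.Agent.H34.N6
open Pool.Agent.H13.DEV

namespace Pool.Agent.H5.N6E

variable {k L : Type} [Field k] [NumberField k] [Field L] [NumberField L] [Algebra k L]

/-- small elements stay small -/
lemma norm_up_lt (w : FPl L) (x : k) (hx : ‖ic (w.under (𝓞 k)) x‖ < 1) :
    ‖ic w (algebraMap k L x)‖ < 1 := by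
  obtain ⟨φ, hc, hφ⟩ := exists_up (k := k) w
  rw [← hφ]
  by_contra h1
  push Not at h1
  have h2 : Filter.Tendsto (fun n : ℕ => φ ((ic (w.under (𝓞 k)) x) ^ n)) Filter.atTop
      (nhds (φ 0)) :=
    (hc.tendsto 0).comp (tendsto_pow_atTop_nhds_zero_of_norm_lt_one hx)
  rw [map_zero] at h2
  have h3 := h2.norm
  rw [norm_zero] at h3
  have h4 : ∀ n : ℕ, (1 : ℝ) ≤ ‖φ ((ic (w.under (𝓞 k)) x) ^ n)‖ := by
    intro n
    rw [map_pow, norm_pow]
    exact one_le_pow₀ h1
  have h5 := ge_of_tendsto h3 (Filter.Eventually.of_forall h4)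
  linarith

lemma ic_aeval (w : FPl L) (e : L) (G : k[X]) : ic w (aeval e G) =
    ∑ i ∈ Finset.range (G.natDegree + 1), ic w (algebraMap k L (G.coeff i)) * (ic w e) ^ i := by
  rw [aeval_eq_sum_range, map_sum]
  refine Finset.sum_congr rfl fun i _ => ?_
  rw [Algebra.smul_def, map_mul, map_pow]

/-- ultrametric estimate of a sum -/
lemma sum_le (w : FPl L) {ι : Type} (s : Finset ι) (f : ι → w.adicCompletion L) (C : ℝ)
    (hC : 0 ≤ C) (h : ∀ i ∈ s, ‖f i‖ ≤ C) : ‖∑ i ∈ s, f i‖ ≤ C :=
  IsUltrametricDist.norm_sum_le_of_forall_le_of_nonneg hC h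

lemma sum_lt (w : FPl L) {ι : Type} (s : Finset ι) (f : ι → w.adicCompletion L)
    (h : ∀ i ∈ s, ‖f i‖ < 1) : ‖∑ i ∈ s, f i‖ < 1 := by
  classical
  induction s using Finset.induction_on with
  | empty => simp
  | insert a s ha ih =>
    rw [Finset.sum_insert ha]
    refine (IsUltrametricDist.norm_add_le_max _ _).trans_lt (max_lt ?_ ?_)
    · exact h a (Finset.mem_insert_self a s)
    · exact ih fun i hi => h i (Finset.mem_insert_of_mem hi)

lemma int_le (w : FPl L) (e : L) (he : ‖ic w e‖ ≤ 1) (G : k[X])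
    (hG : Int (w.under (𝓞 k)) G) : ‖ic w (aeval e G)‖ ≤ 1 := by
  rw [ic_aeval]
  refine sum_le w _ _ 1 zero_le_one fun i _ => ?_
  rw [norm_mul, norm_pow]
  exact mul_le_one₀ (norm_up_le w _ (hG i)) (by positivity) (pow_le_one₀ (norm_nonneg _) he)

lemma int_lt (w : FPl L) (e : L) (he : ‖ic w e‖ ≤ 1) (G : k[X])
    (hG : ∀ i, ‖ic (w.under (𝓞 k)) (G.coeff i)‖ < 1) : ‖ic w (aeval e G)‖ < 1 := by
  rw [ic_aeval]
  refine sum_lt w _ _ fun i _ => ?_
  rw [norm_mul, norm_pow]
  exact mul_lt_one_of_nonneg_of_lt_one_left (norm_nonneg _) (norm_up_lt w _ (hG i))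
    (pow_le_one₀ (norm_nonneg _) he)

/-- roots of integral monic polynomials are integral -/
lemma root_int (w : FPl L) (e : L) (P : k[X]) (hP : P.Monic) (hI : Int (w.under (𝓞 k)) P)
    (h0 : aeval e P = 0) : ‖ic w e‖ ≤ 1 := by
  by_contra hcon
  push Not at hcon
  have h1 := ic_aeval w e P
  rw [h0, map_zero, Finset.sum_range_succ, hP.coeff_natDegree, map_one, map_one, one_mul] at h1
  have h2 : ‖(ic w e) ^ P.natDegree‖ = ‖∑ i ∈ Finset.range P.natDegree,
      ic w (algebraMap k L (P.coeff i)) * (ic w e) ^ i‖ := by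
    have h3 : (ic w e) ^ P.natDegree = -∑ i ∈ Finset.range P.natDegree,
      ic w (algebraMap k L (P.coeff i)) * (ic w e) ^ i := by
      linear_combination -h1
    rw [h3, norm_neg]
  rcases Nat.eq_zero_or_pos P.natDegree with hd | hd
  · rw [hd] at h2
    simp at h2
  · have h3 : ‖∑ i ∈ Finset.range P.natDegree,
        ic w (algebraMap k L (P.coeff i)) * (ic w e) ^ i‖ ≤ ‖ic w e‖ ^ (P.natDegree - 1) := by
      refine sum_le w _ _ _ (by positivity) fun i hi => ?_
      rw [norm_mul, norm_pow]
      have h4 : ‖ic w (algebraMap k L (P.coeff i))‖ ≤ 1 := norm_up_le w _ (hI i)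
      have h5 : ‖ic w e‖ ^ i ≤ ‖ic w e‖ ^ (P.natDegree - 1) :=
        pow_le_pow_right₀ hcon.le (by have := Finset.mem_range.1 hi; omega)
      calc ‖ic w (algebraMap k L (P.coeff i))‖ * ‖ic w e‖ ^ i ≤ 1 * ‖ic w e‖ ^ i :=
            mul_le_mul_of_nonneg_right h4 (by positivity)
        _ = ‖ic w e‖ ^ i := one_mul _
        _ ≤ _ := h5
    rw [← h2, norm_pow] at h3
    have h6 : ‖ic w e‖ ^ (P.natDegree - 1) < ‖ic w e‖ ^ P.natDegree :=
      pow_lt_pow_right₀ hcon (by omega)
    linarith

/-- the integral elements -/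
noncomputable def intSub (v : FPl k) : Subring k where
  carrier := {x | ‖ic v x‖ ≤ 1}
  zero_mem' := by simp
  one_mem' := by simp
  add_mem' := by
    intro a b ha hb
    show ‖ic v (a + b)‖ ≤ 1
    rw [map_add]
    exact (IsUltrametricDist.norm_add_le_max _ _).trans (max_le ha hb)
  neg_mem' := by
    intro a ha
    show ‖ic v (-a)‖ ≤ 1
    rw [map_neg, norm_neg]
    exact ha
  mul_mem' := by
    intro a b ha hb
    show ‖ic v (a * b)‖ ≤ 1
    rw [map_mul, norm_mul]
    exact mul_le_one₀ ha (norm_nonneg _) hb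

/-- division with remainder by an integral monic polynomial -/
lemma int_div (v : FPl k) (A Q : k[X]) (hA : A.Monic) (hAI : Int v A) (hQ : Int v Q) :
    ∃ C B : k[X], Int v C ∧ Int v B ∧ Q = A * C + B ∧ B.degree < A.degree := by
  have mem : ∀ G : k[X], Int v G → (↑G.coeffs : Set k) ⊆ intSub v := by
    intro G hG x hx
    obtain ⟨n, -, rfl⟩ := Polynomial.mem_coeffs_iff.1 hx
    exact hG n
  set T := intSub v
  let A1 := A.toSubring T (mem A hAI)
  let Q1 := Q.toSubring T (mem Q hQ)
  have hA1 : A1.Monic := (Polynomial.monic_toSubring A T (mem A hAI)).2 hA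
  have eA : A1.map T.subtype = A := Polynomial.map_toSubring A T (mem A hAI)
  have eQ : Q1.map T.subtype = Q := Polynomial.map_toSubring Q T (mem Q hQ)
  have hdiv := Polynomial.modByMonic_add_div Q1 A1
  refine ⟨(Q1 /ₘ A1).map T.subtype, (Q1 %ₘ A1).map T.subtype, ?_, ?_, ?_, ?_⟩
  · intro i
    rw [coeff_map]
    exact ((Q1 /ₘ A1).coeff i).2
  · intro i
    rw [coeff_map]
    exact ((Q1 %ₘ A1).coeff i).2
  · have h1 := congrArg (Polynomial.map T.subtype) hdiv
    rw [Polynomial.map_add, Polynomial.map_mul, eA, eQ] at h1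
    rw [← h1]
    ring
  · have h1 := Polynomial.degree_modByMonic_lt Q1 hA1
    have h2 : (Q1 %ₘ A1).degree = ((Q1 %ₘ A1).map T.subtype).degree :=
      (Polynomial.degree_map_eq_of_injective Subtype.coe_injective _).symm
    have h3 : A1.degree = A.degree := by
      rw [← eA]
      exact (Polynomial.degree_map_eq_of_injective Subtype.coe_injective _).symm
    rw [← h2, ← h3]
    exact h1

theorem pf_RED : T_RED := by
  classical
  intro k L _ _ _ _ _ P e ws hP hPI h0
  have he : ‖ic ws e‖ ≤ 1 := root_int ws e P hP hPI h0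
  let good : ℕ → Prop := fun n => ∃ A : k[X], A.Monic ∧ Int (ws.under (𝓞 k)) A ∧
    A.natDegree = n ∧ ‖ic ws (aeval e A)‖ < 1
  have hgood : ∃ n, good n := ⟨P.natDegree, P, hP, hPI, rfl, by rw [h0]; simp⟩
  obtain ⟨A, hA, hAI, hAd, hAe⟩ := Nat.find_spec hgood
  have hmin : ∀ A' : k[X], A'.Monic → Int (ws.under (𝓞 k)) A' → ‖ic ws (aeval e A')‖ < 1 →
      A.natDegree ≤ A'.natDegree := by
    intro A' h1 h2 h3
    rw [hAd]
    exact Nat.find_min' hgood ⟨A', h1, h2, rfl, h3⟩
  refine ⟨A, hA, hAI, hmin P hP hPI (by rw [h0]; simp), hAe, ?_⟩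
  -- the remainder is small
  have key : ∀ n : ℕ, ∀ B : k[X], B.support.card ≤ n → Int (ws.under (𝓞 k)) B →
      B.degree < A.degree → ‖ic ws (aeval e B)‖ < 1 →
      ∀ i, ‖ic (ws.under (𝓞 k)) (B.coeff i)‖ < 1 := by
    intro n
    induction n with
    | zero =>
      intro B hn _ _ _ i
      have h1 : B = 0 := by
        rw [← Polynomial.support_eq_empty, ← Finset.card_eq_zero]
        omega
      rw [h1]
      simp
    | succ n ih =>
      intro B hn hBI hBd hBe i
      by_cases hB0 : B = 0
      · rw [hB0]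
        simp
      have hb0 : B.leadingCoeff ≠ 0 := leadingCoeff_ne_zero.2 hB0
      by_cases hb : ‖ic (ws.under (𝓞 k)) B.leadingCoeff‖ < 1
      · have e1 : B = B.eraseLead + C B.leadingCoeff * X ^ B.natDegree :=
          (Polynomial.eraseLead_add_C_mul_X_pow B).symm
        have e2 : ‖ic ws (aeval e (C B.leadingCoeff * X ^ B.natDegree))‖ < 1 := by
          rw [map_mul, aeval_C, map_pow, aeval_X, map_mul, norm_mul, map_pow, norm_pow]
          exact mul_lt_one_of_nonneg_of_lt_one_left (norm_nonneg _) (norm_up_lt ws _ hb)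
            (pow_le_one₀ (norm_nonneg _) he)
        have e3 : ‖ic ws (aeval e B.eraseLead)‖ < 1 := by
          have h1 : B.eraseLead = B - C B.leadingCoeff * X ^ B.natDegree :=
            eq_sub_of_add_eq (Polynomial.eraseLead_add_C_mul_X_pow B)
          rw [h1, map_sub, map_sub]
          refine lt_of_le_of_lt (?_ : _ ≤ max _ _) (max_lt hBe e2)
          have := IsUltrametricDist.norm_add_le_max (ic ws (aeval e B))
            (-(ic ws (aeval e (C B.leadingCoeff * X ^ B.natDegree))))
          rw [norm_neg, ← sub_eq_add_neg] at this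
          exact this
        by_cases hi : i = B.natDegree
        · rw [hi]
          exact hb
        · have h2 := ih B.eraseLead (by
            have := Polynomial.card_support_eraseLead' (f := B) (c := B.support.card - 1) (by
              have : 0 < B.support.card := Finset.card_pos.2
                (Polynomial.support_nonempty.2 hB0)
              omega)
            omega) (by
              intro j
              by_cases hj : j = B.natDegree
              · rw [hj, Polynomial.eraseLead_coeff_natDegree]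
                simp
              · rw [Polynomial.eraseLead_coeff_of_ne j hj]
                exact hBI j) ((Polynomial.eraseLead_degree_le).trans_lt hBd) e3 i
          rwa [Polynomial.eraseLead_coeff_of_ne i hi] at h2
      · exfalso
        have hb1 : ‖ic (ws.under (𝓞 k)) B.leadingCoeff‖ = 1 :=
          le_antisymm (hBI _) (not_lt.1 hb)
        have hbi : ‖ic (ws.under (𝓞 k)) (B.leadingCoeff)⁻¹‖ = 1 := by
          rw [map_inv₀, norm_inv, hb1, inv_one]
        have h1 := hmin (C (B.leadingCoeff)⁻¹ * B) (by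
            rw [Polynomial.Monic, Polynomial.leadingCoeff_mul, leadingCoeff_C,
              inv_mul_cancel₀ hb0]) (by
            intro j
            rw [coeff_C_mul, map_mul, norm_mul, hbi, one_mul]
            exact hBI j) (by
            rw [map_mul, aeval_C, map_mul, norm_mul]
            refine mul_lt_one_of_nonneg_of_lt_one_right ?_ (norm_nonneg _) hBe
            exact norm_up_le ws _ hbi.le)
        have h2 : (C (B.leadingCoeff)⁻¹ * B).natDegree = B.natDegree :=
          Polynomial.natDegree_C_mul (inv_ne_zero hb0)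
        rw [h2] at h1
        have h3 : B.natDegree < A.natDegree := by
          rw [Polynomial.degree_eq_natDegree hB0, Polynomial.degree_eq_natDegree hA.ne_zero] at hBd
          exact_mod_cast hBd
        omega
  intro Q hQI hQe
  obtain ⟨C, B, hC, hB, hQ, hd⟩ := int_div (ws.under (𝓞 k)) A Q hA hAI hQI
  refine ⟨C, B, hC, hQ, key _ B le_rfl hB hd ?_⟩
  have h1 : B = Q - A * C := by
    rw [hQ]
    ring
  rw [h1, map_sub, map_sub, map_mul, map_mul]
  refine lt_of_le_of_lt (?_ : _ ≤ max ‖ic ws (aeval e Q)‖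
    ‖ic ws (aeval e A) * ic ws (aeval e C)‖) (max_lt hQe ?_)
  · have := IsUltrametricDist.norm_add_le_max (ic ws (aeval e Q))
      (-(ic ws (aeval e A) * ic ws (aeval e C)))
    rw [norm_neg, ← sub_eq_add_neg] at this
    exact this
  · rw [norm_mul]
    exact mul_lt_one_of_nonneg_of_lt_one_left (norm_nonneg _) hAe (int_le ws e he C hC)

end Pool.Agent.H5.N6E
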