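import Pool.Agent.H13.DEV.Targets

/-! # Rows CFC and CFR: coefficients are small -/

set_option autoImplicit false

open Polynomial NumberField IsDedekindDomain Pool.Agent.H32.QC Pool.Agent.H34.N6
open Pool.Agent.H13.DEV

namespace Pool.Agent.H5.N6E

variable {k L : Type} [Field k] [NumberField k] [Field L] [NumberField L] [Algebra k L]

lemma fin_kl : FiniteDimensional k L := Module.Finite.of_restrictScalars_finite ℚ k L

/-- the coefficients are traces -/
lemma coeff_trace (P : k[X]) (e : L) (hG : Gen P e) (i : ℕ) :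
    ∃ d : L, ∀ Q : k[X], Q.degree < P.degree →
      Q.coeff i = Algebra.trace k L (d * aeval e Q) := by
  classical
  have hfin : FiniteDimensional k L := fin_kl
  have hint : IsIntegral k e := Algebra.IsIntegral.isIntegral e
  have hP0 : P ≠ 0 := by
    rw [← hG.mp]
    exact minpoly.ne_zero hint
  set n := P.natDegree with hn
  have hdeg : P.degree = (n : WithBot ℕ) := Polynomial.degree_eq_natDegree hP0
  let f : Polynomial.degreeLT k n →ₗ[k] L :=
    (aeval e).toLinearMap.comp (Polynomial.degreeLT k n).subtype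
  have hf : LinearMap.ker f = ⊥ := by
    rw [LinearMap.ker_eq_bot']
    rintro ⟨Q, hQ⟩ h0
    have h1 : aeval e Q = 0 := h0
    have h2 : Q = 0 := by
      by_contra h3
      have h4 := minpoly.degree_le_of_ne_zero k e h3 h1
      rw [hG.mp, hdeg] at h4
      have h5 := Polynomial.mem_degreeLT.1 hQ
      exact absurd h5 (not_lt.2 h4)
    exact Subtype.ext h2
  obtain ⟨g, hg⟩ := f.exists_leftInverse_of_injective hf
  let c : L →ₗ[k] k := (Polynomial.lcoeff k i).comp ((Polynomial.degreeLT k n).subtype.comp g)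
  have hc : ∀ Q : k[X], Q.degree < P.degree → c (aeval e Q) = Q.coeff i := by
    intro Q hQ
    have h1 : Q ∈ Polynomial.degreeLT k n := by
      rw [Polynomial.mem_degreeLT, ← hdeg]
      exact hQ
    have h2 : g (aeval e Q) = ⟨Q, h1⟩ := by
      have h3 := LinearMap.congr_fun hg ⟨Q, h1⟩
      exact h3
    show (Polynomial.lcoeff k i) ((g (aeval e Q) : Polynomial.degreeLT k n) : k[X]) = _
    rw [h2]
    rfl
  have hnd := traceForm_nondegenerate k L
  refine ⟨((Algebra.traceForm k L).toDual hnd).symm c, fun Q hQ => ?_⟩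
  have h1 := LinearMap.BilinForm.apply_toDual_symm_apply (B := Algebra.traceForm k L) (hB := hnd)
    c (aeval e Q)
  rw [Algebra.traceForm_apply] at h1
  rw [h1, hc Q hQ]

lemma exists_small_el (v : FPl k) (ε : ℝ) (hε : 0 < ε) : ∃ x : k, x ≠ 0 ∧ ‖ic v x‖ < ε := by
  obtain ⟨x, hx⟩ := v.valuation_exists_uniformizer k
  have hx0 : x ≠ 0 := by
    rintro rfl
    rw [map_zero] at hx
    exact WithZero.exp_ne_zero hx.symm
  have h1 : ‖ic v x‖ < 1 := by
    have h1 : Valued.v (ic v x) = v.valuation k x :=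
      HeightOneSpectrum.valuedAdicCompletion_eq_valuation' v x
    have h2 : Valued.v (ic v x) < 1 := by
      rw [h1, hx]
      exact WithZero.exp_lt_exp.2 (by norm_num)
    exact Valued.toNormedField.norm_lt_one_iff.2 h2
  obtain ⟨n, hn⟩ := exists_pow_lt_of_lt_one hε h1
  refine ⟨x ^ n, pow_ne_zero n hx0, ?_⟩
  rw [map_pow, norm_pow]
  exact hn

theorem pf_CFC (hTRI : T_TRI) (_ : T_BEL) (hFIN : T_FIN) : T_CFC := by
  classical
  intro k L _ _ _ _ _ P e v hG ε hε
  choose d hd using coeff_trace P e hG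
  obtain ⟨π, hπ0, hπ⟩ := exists_small_el v ε hε
  have hfin : {w : FPl L | w.under (𝓞 k) = v}.Finite := by
    have h1 := (hFIN k L).1 (Sum.inl v)
    have h2 : {w : FPl L | w.under (𝓞 k) = v} ⊆
        (Sum.inl : FPl L → Pl L) ⁻¹' {w : Pl L | bel (k := k) w = Sum.inl v} := by
      intro w hw
      show (Sum.inl (w.under (𝓞 k)) : Pl k) = Sum.inl v
      rw [hw]
    exact (h1.preimage Sum.inl_injective.injOn).subset h2
  set A := hfin.toFinset with hA
  set M : ℝ := ∑ w ∈ A, ∑ i ∈ Finset.range P.natDegree,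
    ‖ic w (algebraMap k L π⁻¹ * d i)‖ with hM
  have hM0 : 0 ≤ M := Finset.sum_nonneg fun w _ => Finset.sum_nonneg fun i _ => norm_nonneg _
  refine ⟨1 / (1 + M), by positivity, fun Q hQ hs i => ?_⟩
  show ‖ic v ((Q - 0).coeff i)‖ < ε
  rw [sub_zero]
  by_cases hi : i < P.natDegree
  · rw [hd i Q hQ]
    have h1 : Algebra.trace k L (d i * aeval e Q) =
        π * Algebra.trace k L (algebraMap k L π⁻¹ * d i * aeval e Q) := by
      rw [mul_assoc, ← Algebra.smul_def, map_smul, smul_eq_mul, ← mul_assoc,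
        mul_inv_cancel₀ hπ0, one_mul]
    have h2 : ‖ic v (Algebra.trace k L (algebraMap k L π⁻¹ * d i * aeval e Q))‖ ≤ 1 := by
      refine hTRI k L v _ fun w hw => ?_
      rw [map_mul, norm_mul]
      have h3 : ‖ic w (algebraMap k L π⁻¹ * d i)‖ ≤ M := by
        have h4 : ∑ i ∈ Finset.range P.natDegree, ‖ic w (algebraMap k L π⁻¹ * d i)‖ ≤ M :=
          Finset.single_le_sum (f := fun w : FPl L => ∑ i ∈ Finset.range P.natDegree,
            ‖ic w (algebraMap k L π⁻¹ * d i)‖)
            (fun w _ => Finset.sum_nonneg fun i _ => norm_nonneg _)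
            (hfin.mem_toFinset.2 hw)
        have h5 : ‖ic w (algebraMap k L π⁻¹ * d i)‖ ≤
            ∑ i ∈ Finset.range P.natDegree, ‖ic w (algebraMap k L π⁻¹ * d i)‖ :=
          Finset.single_le_sum (f := fun i : ℕ => ‖ic w (algebraMap k L π⁻¹ * d i)‖)
            (fun i _ => norm_nonneg _) (Finset.mem_range.2 hi)
        exact h5.trans h4
      calc ‖ic w (algebraMap k L π⁻¹ * d i)‖ * ‖ic w (aeval e Q)‖
          ≤ M * (1 / (1 + M)) :=
            mul_le_mul h3 (hs w hw).le (norm_nonneg _) hM0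
        _ ≤ 1 := by
            rw [mul_one_div, div_le_one (by positivity)]
            linarith
    rw [h1, map_mul, norm_mul]
    calc ‖ic v π‖ * ‖ic v (Algebra.trace k L (algebraMap k L π⁻¹ * d i * aeval e Q))‖
        ≤ ‖ic v π‖ * 1 := mul_le_mul_of_nonneg_left h2 (norm_nonneg _)
      _ < ε := by rw [mul_one]; exact hπ
  · have h1 : Q.coeff i = 0 := by
      apply Polynomial.coeff_eq_zero_of_degree_lt
      refine hQ.trans_le (Polynomial.degree_le_natDegree.trans ?_)
      exact_mod_cast not_lt.1 hi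
    rw [h1, map_zero, norm_zero]
    exact hε

theorem pf_CFR : T_CFR := by
  classical
  intro k L _ _ _ _ _ P e φ hG ε hε
  choose d hd using coeff_trace P e hG
  have hfin : FiniteDimensional k L := fin_kl
  letI : Algebra k ℂ := (Complex.ofRealHom.comp φ).toAlgebra
  have halg : ∀ x : k, algebraMap k ℂ x = ((φ x : ℝ) : ℂ) := fun x => rfl
  set M : ℝ := ∑ i ∈ Finset.range P.natDegree, ∑ σ : L →ₐ[k] ℂ, ‖σ (d i)‖ with hM
  have hM0 : 0 ≤ M := Finset.sum_nonneg fun w _ => Finset.sum_nonneg fun i _ => norm_nonneg _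
  refine ⟨ε / (1 + M), by positivity, fun Q hQ hs i => ?_⟩
  show |φ ((Q - 0).coeff i)| < ε
  rw [sub_zero]
  by_cases hi : i < P.natDegree
  · have h1 : ((φ (Q.coeff i) : ℝ) : ℂ) = ∑ σ : L →ₐ[k] ℂ, σ (d i * aeval e Q) := by
      rw [← halg, hd i Q hQ]
      exact trace_eq_sum_embeddings ℂ
    have h2 : |φ (Q.coeff i)| = ‖((φ (Q.coeff i) : ℝ) : ℂ)‖ := by
      rw [Complex.norm_real, Real.norm_eq_abs]
    rw [h2, h1]
    have h3 : ∀ σ : L →ₐ[k] ℂ, ‖σ (d i * aeval e Q)‖ ≤ ‖σ (d i)‖ * (ε / (1 + M)) := by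
      intro σ
      rw [map_mul, norm_mul]
      refine mul_le_mul_of_nonneg_left ?_ (norm_nonneg _)
      refine (hs (σ : L →+* ℂ) ?_).le
      ext x
      exact σ.commutes x
    have h4 : ∑ σ : L →ₐ[k] ℂ, ‖σ (d i)‖ ≤ M :=
      Finset.single_le_sum (f := fun i : ℕ => ∑ σ : L →ₐ[k] ℂ, ‖σ (d i)‖)
        (fun i _ => Finset.sum_nonneg fun σ _ => norm_nonneg _) (Finset.mem_range.2 hi)
    calc ‖∑ σ : L →ₐ[k] ℂ, σ (d i * aeval e Q)‖
        ≤ ∑ σ : L →ₐ[k] ℂ, ‖σ (d i * aeval e Q)‖ := norm_sum_le _ _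
      _ ≤ ∑ σ : L →ₐ[k] ℂ, ‖σ (d i)‖ * (ε / (1 + M)) := Finset.sum_le_sum fun σ _ => h3 σ
      _ = (∑ σ : L →ₐ[k] ℂ, ‖σ (d i)‖) * (ε / (1 + M)) := by rw [Finset.sum_mul]
      _ ≤ M * (ε / (1 + M)) := mul_le_mul_of_nonneg_right h4 (by positivity)
      _ < ε := by
          rw [← mul_div_assoc, div_lt_iff₀ (by positivity)]
          nlinarith
  · have h1 : Q.coeff i = 0 := by
      apply Polynomial.coeff_eq_zero_of_degree_lt
      refine hQ.trans_le (Polynomial.degree_le_natDegree.trans ?_)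
      exact_mod_cast not_lt.1 hi
    rw [h1, map_zero, abs_zero]
    exact hε

end Pool.Agent.H5.N6E
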