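import Pool.Agent.H13.DEV.Targets
import Pool.Agent.H12.QC.SB

/-! # Row HPO: the cofactor -/

set_option autoImplicit false

open Polynomial NumberField IsDedekindDomain Pool.Agent.H32.QC Pool.Agent.H34.N6
open Pool.Agent.H13.DEV

namespace Pool.Agent.H5.N6E

lemma coeff_sum_fin {k : Type} [Field k] (n : ℕ) (h : Fin n → k) (j : ℕ) :
    (∑ i : Fin n, C (h i) * X ^ (i : ℕ) : k[X]).coeff j =
      if hj : j < n then h ⟨j, hj⟩ else 0 := by
  classical
  rw [finsetSum_coeff]
  simp only [coeff_C_mul, coeff_X_pow, mul_ite, mul_one, mul_zero]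
  split_ifs with hj
  · rw [Finset.sum_eq_single (⟨j, hj⟩ : Fin n)]
    · simp
    · intro i _ hi
      rw [if_neg]
      rintro rfl
      exact hi rfl
    · intro h1
      exact absurd (Finset.mem_univ _) h1
  · refine Finset.sum_eq_zero fun i _ => ?_
    rw [if_neg]
    rintro rfl
    exact hj i.2

theorem pf_HPO : T_HPO := by
  classical
  intro k _ _ S p n H ε hp hS hH hε
  have step : ∀ i : Fin n, ∃ z : k,
      (∀ v : FPl k, Sum.inl v ∈ S → ‖ic v z - ic v ((H (Sum.inl v)).coeff i)‖ < ε) ∧
      (∀ v : FPl k, Sum.inl v ∉ S → (p : 𝓞 k) ∉ v.asIdeal → ‖ic v z‖ ≤ 1) ∧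
      ∀ φ : k →+* ℝ, Sum.inr φ ∈ S → |φ z - φ ((H (Sum.inr φ)).coeff i)| < ε := by
    intro i
    let y : InfinitePlace k → ℂ := fun w => if h : w.IsReal then
      ((InfinitePlace.embedding_of_isReal h
        ((H (Sum.inr (InfinitePlace.embedding_of_isReal h))).coeff i) : ℝ) : ℂ) else 0
    obtain ⟨z, h1, h2, h3⟩ := Pool.Agent.H12.QC.Inf.strongApprox p hp S.toLeft
      (fun v hv => hS v (Finset.mem_toLeft.1 hv)) (fun v => ic v ((H (Sum.inl v)).coeff i))
      (fun v => Metric.ball (ic v ((H (Sum.inl v)).coeff i)) ε)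
      (fun v _ => Metric.ball_mem_nhds _ hε) y (by
        intro w hw
        simp only [y, dif_pos hw, Complex.ofReal_im]) ε hε
    refine ⟨z, fun v hv => ?_, fun v hv hv2 => h2 v (fun h => hv (Finset.mem_toLeft.1 h)) hv2,
      fun φ _ => ?_⟩
    · have h4 := h1 v (Finset.mem_toLeft.2 hv)
      rwa [Metric.mem_ball, dist_eq_norm] at h4
    · have hr : ComplexEmbedding.IsReal (Complex.ofRealHom.comp φ) := by
        rw [ComplexEmbedding.isReal_iff]
        ext x
        show (starRingEnd ℂ) ((φ x : ℝ) : ℂ) = ((φ x : ℝ) : ℂ)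
        exact Complex.conj_ofReal _
      set w := InfinitePlace.mk (Complex.ofRealHom.comp φ) with hw
      have hwr : w.IsReal := ⟨_, hr, rfl⟩
      have he : w.embedding = Complex.ofRealHom.comp φ :=
        InfinitePlace.embedding_mk_eq_of_isReal hr
      have he2 : InfinitePlace.embedding_of_isReal hwr = φ := by
        ext x
        have h5 := InfinitePlace.embedding_of_isReal_apply hwr x
        rw [he] at h5
        exact Complex.ofReal_injective h5
      have h4 := h3 w
      rw [he] at h4
      simp only [y, dif_pos hwr, he2] at h4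
      have h5 : ‖((φ z - φ ((H (Sum.inr φ)).coeff i) : ℝ) : ℂ)‖ < ε := by
        rw [Complex.ofReal_sub]
        exact h4
      rwa [Complex.norm_real, Real.norm_eq_abs] at h5
  choose h h1 h2 h3 using step
  set q : k[X] := ∑ i : Fin n, C (h i) * X ^ (i : ℕ) with hq
  have hqd : q.degree < n := Polynomial.degree_sum_fin_lt h
  have hmon : (X ^ n + q).Monic := Polynomial.monic_X_pow_add hqd
  have hdeg : (X ^ n + q).natDegree = n := by
    rw [Polynomial.natDegree_eq_of_degree_eq_some]
    rw [add_comm, Polynomial.degree_add_eq_right_of_degree_lt, degree_X_pow]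
    rw [degree_X_pow]
    exact hqd
  have hco : ∀ j, (X ^ n + q).coeff j = if hj : j < n then h ⟨j, hj⟩ else
      if j = n then 1 else 0 := by
    intro j
    rw [coeff_add, coeff_X_pow, hq, coeff_sum_fin]
    by_cases hj : j < n
    · rw [if_neg (by omega), dif_pos hj, zero_add]
    · rw [dif_neg hj, dif_neg hj, add_zero]
  have hcoH : ∀ v ∈ S, ∀ j, ¬ j < n → (H v).coeff j = if j = n then 1 else 0 := by
    intro v hv j hj
    obtain ⟨m1, m2⟩ := hH v hv
    by_cases hjn : j = n
    · rw [if_pos hjn, hjn, ← m2]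
      exact m1.coeff_natDegree
    · rw [if_neg hjn]
      apply Polynomial.coeff_eq_zero_of_natDegree_lt
      rw [m2]
      omega
  refine ⟨X ^ n + q, hmon, hdeg, fun v hv j => ?_, fun v hv hv2 j => ?_⟩
  · rw [coeff_sub, hco j]
    by_cases hj : j < n
    · rw [dif_pos hj]
      cases v with
      | inl v =>
        show ‖ic v (h ⟨j, hj⟩ - (H (Sum.inl v)).coeff j)‖ < ε
        rw [map_sub]
        exact h1 ⟨j, hj⟩ v hv
      | inr φ =>
        show |φ (h ⟨j, hj⟩ - (H (Sum.inr φ)).coeff j)| < ε
        rw [map_sub]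
        exact h3 ⟨j, hj⟩ φ hv
    · rw [dif_neg hj, hcoH v hv j hj, sub_self]
      cases v with
      | inl v =>
        show ‖ic v 0‖ < ε
        rw [map_zero, norm_zero]
        exact hε
      | inr φ =>
        show |φ 0| < ε
        rw [map_zero, abs_zero]
        exact hε
  · rw [hco j]
    by_cases hj : j < n
    · rw [dif_pos hj]
      exact h2 ⟨j, hj⟩ v hv hv2
    · rw [dif_neg hj]
      split_ifs
      · rw [map_one, norm_one]
      · rw [map_zero, norm_zero]
        exact zero_le_one

end Pool.Agent.H5.N6E
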